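import Pool.Agent.U668.PA.Cnt

/-!
# Palindromes in sieved random models of the primes
-/

set_option autoImplicit false

namespace Pool.Agent.Results.MP_e8d2ce_nt.PalindromesInSievedModels

open Finset Filter Topology MeasureTheory ProbabilityTheory

open Classical in
/-- The probability with which `n` is chosen in the model with sieve limit `T`: it is
`(log n)⁻¹ ∏_{p ≤ T n} (1 - 1/p)⁻¹` if `n` has no prime factor `p ≤ T n`, and `0` otherwise. -/
noncomputable def prob (T : ℕ → ℕ) (n : ℕ) : ℝ :=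
  if ∀ p, p.Prime → p ≤ T n → ¬ p ∣ n then
    (∏ p ∈ (Icc 1 (T n)).filter Nat.Prime, (1 - 1 / (p : ℝ))⁻¹) / Real.log n
  else 0

/-- `n` is a palindrome in base `b` -/
def IsPal (b n : ℕ) : Prop := (Nat.digits b n).reverse = Nat.digits b n

theorem prob_eq (T : ℕ → ℕ) (n : ℕ) : prob T n = Pool.Agent.U485.SM.fT T n / Real.log n := by
  unfold prob Pool.Agent.U485.SM.fT Pool.Agent.U485.SM.W Pool.Agent.U485.SM.Pr
  split_ifs
  · rfl
  · rw [zero_div]

open Classical in
/-- (1) Palindromes with `2 L + 1` digits without prime factors `≤ t`, for every even base `b ≥ 4`,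
uniformly in `b ≤ t ≤ b ^ (ε L)`. (2) In every sieved random model, almost surely: in every even
base `b ≥ 4`, the number of the chosen palindromes with `2 L + 1` digits is asymptotic to
`b ^ (L + 1) / (2 L log b)`, and the number of the chosen palindromes up to `x` has the order of
magnitude of (number of palindromes up to `x`) `/ log x`. -/
theorem result :
    (∀ b : ℕ, 4 ≤ b → Even b → ∀ δ : ℝ, 0 < δ → ∃ ε : ℝ, 0 < ε ∧ ∀ᶠ L : ℕ in atTop,
      ∀ t : ℕ, b ≤ t → (t : ℝ) ≤ (b : ℝ) ^ (ε * L) →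
        |(((range (b ^ (2 * L + 1))).filter (fun n => b ^ (2 * L) ≤ n ∧ IsPal b n ∧
            ∀ p, p.Prime → p ≤ t → ¬ p ∣ n)).card : ℝ) -
          (b : ℝ) ^ (L + 1) * ∏ p ∈ (Icc 1 t).filter Nat.Prime, (1 - 1 / (p : ℝ))| ≤
        δ * ((b : ℝ) ^ (L + 1) * ∏ p ∈ (Icc 1 t).filter Nat.Prime, (1 - 1 / (p : ℝ)))) ∧
    (∀ (Ω : Type) (mΩ : MeasurableSpace Ω) (μ : Measure Ω), IsProbabilityMeasure μ →
      ∀ E : ℕ → Set Ω, (∀ n, MeasurableSet (E n)) → iIndepSet E μ →
      ∀ T : ℕ → ℕ, Monotone T → Tendsto T atTop atTop →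
      (∀ ε : ℝ, 0 < ε → ∀ᶠ n : ℕ in atTop, (T n : ℝ) ≤ (n : ℝ) ^ ε) →
      (∀ᶠ n : ℕ in atTop, μ.real (E n) = prob T n) →
      ∀ᵐ ω ∂μ, ∀ b : ℕ, 4 ≤ b → Even b →
        Tendsto (fun L : ℕ => (((range (b ^ (2 * L + 1))).filter (fun n => b ^ (2 * L) ≤ n ∧
          IsPal b n ∧ ω ∈ E n)).card : ℝ) * ((2 * L * Real.log b) / (b : ℝ) ^ (L + 1)))
          atTop (𝓝 1) ∧
        ∀ᶠ x : ℕ in atTop,
          1 / (8 * b) * ((((Icc 1 x).filter (fun n => IsPal b n)).card : ℝ) / Real.log x) ≤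
            (((Icc 1 x).filter (fun n => IsPal b n ∧ ω ∈ E n)).card : ℝ) ∧
          (((Icc 1 x).filter (fun n => IsPal b n ∧ ω ∈ E n)).card : ℝ) ≤
            5 * (2 * (b : ℝ) ^ 2 + 1) *
              ((((Icc 1 x).filter (fun n => IsPal b n)).card : ℝ) / Real.log x)) := by
  constructor
  · intro b hb he δ hδ
    obtain ⟨ε, hε, h⟩ := Pool.Agent.U668.PA.det hb he.two_dvd
      (Pool.Agent.U668.PA.bvB_all (by omega)) δ hδ
    refine ⟨ε, hε, ?_⟩
    filter_upwards [h] with L hL t hbt ht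
    have h1 := hL t hbt ht
    have h2 : (b : ℝ) ^ (L + 1) / Pool.Agent.U485.SM.W t =
        (b : ℝ) ^ (L + 1) * ∏ p ∈ (Icc 1 t).filter Nat.Prime, (1 - 1 / (p : ℝ)) := by
      unfold Pool.Agent.U485.SM.W Pool.Agent.U485.SM.Pr
      rw [Finset.prod_inv_distrib, div_inv_eq_mul]
    rw [h2] at h1
    have h3 : (range (b ^ (2 * L + 1))).filter (fun n => b ^ (2 * L) ≤ n ∧ IsPal b n ∧
        ∀ p, p.Prime → p ≤ t → ¬ p ∣ n) =
        (Pool.Agent.H181R5.PBT9.palin b L).filter (fun n => ∀ p, p.Prime → p ≤ t → ¬ p ∣ n) := by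
      ext n
      simp only [Pool.Agent.H181R5.PBT9.palin, mem_filter, IsPal]
      tauto
    rw [h3]
    exact h1
  · intro Ω mΩ μ hμ E hE hI T hT hTt hTs hp
    rw [ae_all_iff]
    intro b
    by_cases hb : 4 ≤ b ∧ Even b
    · obtain ⟨hb, he⟩ := hb
      have hp' : ∀ᶠ n : ℕ in atTop, μ.real (E n) =
          Pool.Agent.U485.SM.fT T n / Real.log n := by
        filter_upwards [hp] with n hn
        rw [hn, prob_eq]
      have h1 := Pool.Agent.U668.PA.chosen μ hμ E hE hI hb he.two_dvd T hT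
        (hTt.eventually_ge_atTop b) hTs hp'
      obtain ⟨n0, h2⟩ := Pool.Agent.U668.PA.no_even (b := b) μ hμ E T
        (hTt.eventually_ge_atTop (b + 1)) (by omega) hp'
      filter_upwards [h1, h2] with ω hω1 hω2 _ _
      refine ⟨?_, ?_⟩
      · have h3 : ∀ L : ℕ, (((range (b ^ (2 * L + 1))).filter (fun n => b ^ (2 * L) ≤ n ∧
            IsPal b n ∧ ω ∈ E n)).card : ℝ) = Pool.Agent.U668.PA.nch E b L ω := by
          intro L
          unfold Pool.Agent.U668.PA.nch
          congr 2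
          ext n
          simp only [Pool.Agent.H181R5.PBT9.palin, mem_filter, IsPal]
          tauto
        simp only [h3]
        exact hω1
      · have h4 := Pool.Agent.U668.PA.to_all E hb ω hω1 n0 hω2
        filter_upwards [h4] with x hx
        have e1 : (Icc 1 x).filter (fun n => IsPal b n) =
            (Icc 1 x).filter (fun n => (Nat.digits b n).reverse = Nat.digits b n) := by
          ext n
          simp only [mem_filter, IsPal]
        have e2 : (Icc 1 x).filter (fun n => IsPal b n ∧ ω ∈ E n) =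
            (Icc 1 x).filter (fun n => (Nat.digits b n).reverse = Nat.digits b n ∧ ω ∈ E n) := by
          ext n
          simp only [mem_filter, IsPal]
        rw [e1, e2]
        exact hx
    · refine Eventually.of_forall fun ω h1 h2 => absurd ⟨h1, h2⟩ hb

end Pool.Agent.Results.MP_e8d2ce_nt.PalindromesInSievedModels
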