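import Pool.Agent.R471.PP.Main
/-!
# Polynomial values at palindromes with prescribed leading digits, every base

For every base `b ≥ 2` and every integer polynomial `F` without a local obstruction there are many palindromes
`n` with any prescribed admissible leading digits such that `n` and `F(n)` are both free of small prime factors
and have few prime factors.  With `F = X + h`: palindromes `n` for which `n + h` is almost prime as well.
-/
set_option autoImplicit false

namespace Pool.Agent.Results.MP_e8d2ce_nt.PolynomialValues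

open Finset Polynomial

open scoped Classical in
/-- Let `b ≥ 2` and let `F` be an integer polynomial, with `F(1)` odd if `b` is odd, such that for every prime `p` not
dividing `2 b` some residue `r` has `p ∤ r F(r)`. There are `c > 0`, `B` and `L₀` such that for all `L ≥ L₀`, `N > L` and
every `x` with exactly `2 N + 1` base-`b` digits whose leading digit `d` has `d F(d)` coprime to `b`, at least
`c b ^ L / L ^ B` of the palindromes `n` with `2 N + 1` digits and with the `N - L` leading digits of `x` satisfy: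
`F(n) ≠ 0`, every prime factor `p` of `n F(n)` has `p ^ B > b ^ L`, and both `n` and `F(n)` have at most `B N / L`
prime factors counted with multiplicity. -/
theorem result (b : ℕ) (hb : 2 ≤ b) (F : ℤ[X]) (hodd : Even b ∨ Odd (F.eval 1))
    (hloc : ∀ p : ℕ, p.Prime → ¬ p ∣ 2 * b → ∃ r : ℕ, ¬ (p : ℤ) ∣ (r : ℤ) * F.eval (r : ℤ)) :
    ∃ c : ℝ, 0 < c ∧ ∃ B L₀ : ℕ, ∀ L N x : ℕ, L₀ ≤ L → L < N →
    b ^ (2 * N) ≤ x → x < b ^ (2 * N + 1) →
    IsCoprime (((x / b ^ (2 * N) : ℕ) : ℤ) * F.eval ((x / b ^ (2 * N) : ℕ) : ℤ)) (b : ℤ) →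
    c * (b : ℝ) ^ L / (L : ℝ) ^ B ≤ (((range (b ^ (2 * N + 1))).filter (fun n =>
      (Nat.digits b n).reverse = Nat.digits b n ∧ n / b ^ (N + L + 1) = x / b ^ (N + L + 1) ∧
      F.eval (n : ℤ) ≠ 0 ∧
      (∀ p : ℕ, p.Prime → (p : ℤ) ∣ (n : ℤ) * F.eval (n : ℤ) → b ^ L < p ^ B) ∧
      n.primeFactorsList.length * L ≤ B * N ∧
      (F.eval (n : ℤ)).natAbs.primeFactorsList.length * L ≤ B * N)).card : ℝ) := by
  classical
  obtain ⟨c, hc, B, L₀, h⟩ := Pool.Agent.R471.PP.polyvals hb F hodd hloc
  refine ⟨c, hc, B, L₀, fun L N x hL hN hx1 hx2 hcop => ?_⟩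
  convert h L N x hL hN hx1 hx2 hcop

end Pool.Agent.Results.MP_e8d2ce_nt.PolynomialValues
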