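import Mathlib
import Pool.Agent.U744.PF.PropFin

/-!
# A positive proportion of the palindromes have a large prime factor, in every base

`palindromes11 b N` are the palindromes in the base `b` with `2 N + 1` digits, the outer digits `1`
and the middle digit `1`; there are `b ^ (N - 1)` of them. In every base `b ≥ 2` and for every
`θ < 1 / 4`, at least the proportion `1 - θ - ε` of them have a prime factor larger than `n ^ θ`. For
`b ≥ 64` the same holds if `b ^ (2 θ) (2 + (2 / π) log b) < b`; and for each `θ < 1 / 2` it holds in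
all large bases, so that about one half of these palindromes have a prime factor larger than
`n ^ (1 / 2 - ε)`.

The proof is Chebyshev's method, from the level of distribution of the palindromes (with the majorants
of the starting library W139) and the bound for the palindromes which are divisible by large squares.
-/

set_option autoImplicit false

namespace Pool.Agent.Results.MP_e8d2ce_nt.ProportionLargePrimeFactors

open Filter

/-- the palindromes in the base `b` with exactly `2 N + 1` digits, the last (so the first) digit `1`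
and the middle digit `1` -/
def palindromes11 (b N : ℕ) : Finset ℕ :=
  (Finset.range (b ^ (2 * N + 1))).filter fun n =>
    b ^ (2 * N) ≤ n ∧ (Nat.digits b n).reverse = Nat.digits b n ∧ n % b = 1 ∧ n / b ^ N % b = 1

open Classical in
/-- for `ε > 0` and large `N`, at least `(1 - θ - ε) b ^ (N - 1)` numbers in `palindromes11 b N` have
a prime factor above `n ^ θ` -/
def MostLarge (b : ℕ) (θ : ℝ) : Prop :=
  ∀ ε : ℝ, 0 < ε → ∀ᶠ N : ℕ in atTop, (1 - θ - ε) * (b : ℝ) ^ (N - 1) ≤
    (((palindromes11 b N).filter fun n => ∃ p : ℕ, p.Prime ∧ p ∣ n ∧ (n : ℝ) ^ θ < p).card : ℝ)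

/-- `MostLarge b θ` holds (1) for `b ≥ 2` and `0 ≤ θ < 1 / 4`, (2) for `b ≥ 64` and `θ ≥ 0` with
`b ^ (2 θ) (2 + (2 / π) log b) < b`, (3) for `0 ≤ θ < 1 / 2` and all large `b`. -/
theorem result :
    (∀ b : ℕ, 2 ≤ b → ∀ θ : ℝ, 0 ≤ θ → θ < 1 / 4 → MostLarge b θ) ∧
    (∀ b : ℕ, 64 ≤ b → ∀ θ : ℝ, 0 ≤ θ →
      (b : ℝ) ^ (2 * θ) * (2 + 2 / Real.pi * Real.log b) < b → MostLarge b θ) ∧
    ∀ θ : ℝ, 0 ≤ θ → θ < 1 / 2 → ∀ᶠ b : ℕ in atTop, MostLarge b θ := by
  classical
  have conv : ∀ (b : ℕ) (θ : ℝ), (∀ ε : ℝ, 0 < ε → ∀ᶠ N : ℕ in atTop,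
      (1 - θ - ε) * (b : ℝ) ^ (N - 1) ≤ ((Pool.Agent.U744.PF.Cl b N θ).card : ℝ)) →
      MostLarge b θ := by
    intro b θ h ε hε
    filter_upwards [h ε hε] with N hN
    refine hN.trans (le_of_eq ?_)
    congr 2
    ext n
    rw [Pool.Agent.U744.PF.mem_Cl]
    unfold palindromes11
    rw [Finset.mem_filter, Finset.mem_filter, Finset.mem_range]
    tauto
  have two : ∀ b : ℕ, 64 ≤ b → ∀ θ : ℝ, 0 ≤ θ →
      (b : ℝ) ^ (2 * θ) * (2 + 2 / Real.pi * Real.log b) < b → MostLarge b θ :=
    fun b hb θ h0 h1 => conv b θ fun ε hε => Pool.Agent.U744.PF.big_base hb h0 h1 hε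
  refine ⟨fun b hb θ h0 h1 => conv b θ fun ε hε => Pool.Agent.U744.PF.quarter hb h0 h1 hε,
    two, fun θ h0 h1 => ?_⟩
  filter_upwards [Pool.Agent.U744.PF.cond_large h1, eventually_ge_atTop 64] with b h2 hb
  exact two b hb θ h0 h2

end Pool.Agent.Results.MP_e8d2ce_nt.ProportionLargePrimeFactors
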