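import Mathlib
import Pool.Agent.U857.PX.A8

/-!
Palindromes with two admissible digits in every place and few prime factors.
-/

set_option autoImplicit false

namespace Pool.Agent.Results.MP_e8d2ce_nt.RaisedDigits

open Finset Filter

open Classical in
/-- Let `b ≥ 3` and `5.91 log b + 0.182 ≤ r` (for instance `b = 10`, `r = 14`).  There is `c > 0` such that for all large
`N`, all digits `d > 0` and all palindromes `w` with `2 N + 1` base-`b` digits which are prime to `2 b d` and whose
digits, apart from the first, the middle and the last one, are less than `b - d`: among the `2 ^ (N - 1)` palindromes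
`n` with the same first and middle digit as `w` all of whose other digits are equal to the digit of `w` in the same
place or to this digit plus `d`, at least `c 2 ^ N / N` have at most `r` prime factors counted with multiplicity, all of
them larger than `2 ^ (N / 13)`. -/
theorem result (b r : ℕ) (hb : 3 ≤ b) (hr : 591 / 100 * Real.log b + 182 / 1000 ≤ r) :
    ∃ c : ℝ, 0 < c ∧ ∀ᶠ N : ℕ in atTop, ∀ d w : ℕ, 0 < d → d < b → b ^ (2 * N) ≤ w → w < b ^ (2 * N + 1) →
      (Nat.digits b w).reverse = Nat.digits b w → w.Coprime (2 * b * d) →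
      (∀ i, 0 < i → i < 2 * N → i ≠ N → w / b ^ i % b + d < b) →
      c * 2 ^ N / N ≤ (((range (b ^ (2 * N + 1))).filter (fun n => (Nat.digits b n).reverse = Nat.digits b n ∧
        n / b ^ (2 * N) = w / b ^ (2 * N) ∧ n / b ^ N % b = w / b ^ N % b ∧
        (∀ i, 0 < i → i < 2 * N → i ≠ N → n / b ^ i % b = w / b ^ i % b ∨ n / b ^ i % b = w / b ^ i % b + d) ∧
        n.primeFactorsList.length ≤ r ∧ ∀ p ∈ n.primeFactorsList, (2 : ℝ) ^ ((N : ℝ) / 13) < p)).card : ℝ) :=
  Pool.Agent.U857.PX.raise hb hr

end Pool.Agent.Results.MP_e8d2ce_nt.RaisedDigits
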